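import Pool.Agent.MP_5f72fe_nt.H3.SpecC

/-! The Mellin transform of the unfolded integral. -/

namespace Pool.Agent.MP_5f72fe_nt.H36

open Pool.Agent.MP_5f72fe_nt.H3
open Complex Filter Topology MeasureTheory Set Asymptotics
open scoped Real MatrixGroups UpperHalfPlane NumberTheorySymbols ComplexConjugate

theorem E_im (n y : ℝ) : E (n * (y * I)) = (Real.exp (-(2 * π * n * y)) : ℝ) := by
  rw [E]
  push_cast
  congr 1
  linear_combination (2 * π * n * y) * I_mul_I

theorem E_int (JH : RowJH) (d : ℤ) : ∫ x in (0 : ℝ)..1, E (d * x) = if d = 0 then 1 else 0 := by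
  split_ifs with h
  · simp [h, E]
  · have hc : (2 * π * I * d : ℂ) ≠ 0 := by
      simp [h, Real.pi_ne_zero]
    have e : ∀ x : ℝ, E (d * x) = cexp (2 * π * I * d * x) := fun x => by rw [E, mul_assoc _ _ (x : ℂ)]
    simp only [e]
    rw [integral_exp_mul_complex hc]
    have := JH.int d
    rw [E] at this
    simp [this]

theorem norm_E (JH : RowJH) (x : ℝ) : ‖E x‖ = 1 := by
  rw [JH.norm]
  simp

/-- Parseval for two absolutely convergent series -/
theorem pars (JH : RowJH) (u v : ℕ → ℂ) (t : ℕ) (hu : Summable fun j => ‖u j‖)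
    (hv : Summable fun n => ‖v n‖) :
    HasSum (fun j => u j * conj (v (j * t))) (∫ x in (0 : ℝ)..1,
      (∑' j : ℕ, u j * E (j * t * x)) * conj (∑' n : ℕ, v n * E (n * x))) := by
  have e : ∀ (j n : ℕ) (x : ℝ), u j * E (j * t * x) * conj (v n * E (n * x)) =
      u j * conj (v n) * E (((j * t - n : ℤ) : ℂ) * x) := fun j n x => by
    have : (((j * t - n : ℤ) : ℂ) * x) = j * t * x + -conj (n * x : ℂ) := by
      simp only [map_mul, conj_natCast, conj_ofReal]
      push_cast
      ring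
    rw [this, JH.add, ← JH.conj, map_mul]
    ring
  have n1 : ∀ (j : ℕ) (x : ℝ), ‖u j * E (j * t * x)‖ = ‖u j‖ := fun j x => by
    have := norm_E JH (j * t * x)
    push_cast at this
    rw [norm_mul, this, mul_one]
  have n2 : ∀ (n : ℕ) (x : ℝ), ‖conj (v n * E (n * x))‖ = ‖v n‖ := fun n x => by
    have := norm_E JH (n * x)
    push_cast at this
    rw [norm_conj, norm_mul, this, mul_one]
  have hb : Summable fun q : ℕ × ℕ => ‖u q.1‖ * ‖v q.2‖ :=
    hu.mul_of_nonneg hv (fun _ => norm_nonneg _) fun _ => norm_nonneg _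
  have H := intervalIntegral.hasSum_integral_of_dominated_convergence (μ := volume) (a := 0) (b := 1)
    (F := fun (q : ℕ × ℕ) (x : ℝ) => u q.1 * E (q.1 * t * x) * conj (v q.2 * E (q.2 * x)))
    (f := fun x : ℝ => (∑' j : ℕ, u j * E (j * t * x)) * conj (∑' n : ℕ, v n * E (n * x)))
    (fun q _ => ‖u q.1‖ * ‖v q.2‖) (fun q => ?_) (fun q => ?_) (Eventually.of_forall fun _ _ => hb)
    intervalIntegrable_const (Eventually.of_forall fun x _ => ?_)
  · refine H.prod_fiberwise fun j => ?_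
    simp only [e, intervalIntegral.integral_const_mul, E_int JH]
    have := hasSum_single (f := fun n : ℕ => u j * conj (v n) *
      if (j * t - n : ℤ) = 0 then 1 else 0) (j * t) fun n hn => by
        rw [if_neg, mul_zero]
        intro h
        exact hn (by exact_mod_cast (sub_eq_zero.1 h).symm)
    simpa using this
  · refine Continuous.aestronglyMeasurable ?_
    unfold E
    fun_prop
  · exact Eventually.of_forall fun x _ => by rw [norm_mul, n1, n2]
  · have s1 : Summable fun j : ℕ => ‖u j * E (j * t * x)‖ := by simpa only [n1] using hu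
    have s2 : Summable fun n : ℕ => ‖conj (v n * E (n * x))‖ := by simpa only [n2] using hv
    rw [conj_tsum, tsum_mul_tsum_of_summable_norm s1 s2]
    exact (summable_mul_of_summable_norm s1 s2).hasSum

/-- the constant -/
noncomputable def C0 (N k : ℕ) : ℂ := cL k * GS N / N ^ k

theorem im_sum (SER : RowSER) (JH : RowJH) (PHI : RowPHI) {N k t : ℕ} (hA : Adm N k) (ht : 1 ≤ t)
    (f : CuspForm 𝒮ℒ (2 * k : ℕ)) (y : ℝ) (hy : 0 < y) :
    HasSum (fun j : ℕ => C0 N k * (J(j | N) * j ^ (k - 1) * conj (aF f (j * t))) *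
      Real.exp (-(4 * π * j * t) * y)) (Im N k t f y) := by
  have hi : ∀ x : ℝ, 0 < (x + y * I : ℂ).im := fun x => by simpa using hy
  have hi0 : 0 < (y * I : ℂ).im := by simpa using hy
  have s1 : Summable fun j : ℕ => ‖(J(j | N) : ℂ) * j ^ (k - 1) * E (j * t * (y * I))‖ := by
    refine Summable.of_nonneg_of_le (fun _ => norm_nonneg _) (fun j => ?_)
      ((PHI N k t hA ht).2 _ hi0).2.2.1
    rw [mul_assoc, norm_mul]
    refine mul_le_of_le_one_left (norm_nonneg _) ?_
    rcases jacobiSym.trichotomy j N with h | h | h <;> simp [h]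
  have s2 : Summable fun n : ℕ => ‖aF f n * E (n * (y * I))‖ := by
    simpa using SER.nsum 1 (aF f) (y * I) one_pos (SER.cf _ f).1 hi0
  have H := (pars JH _ _ t s1 s2).mul_left (C0 N k)
  rw [← intervalIntegral.integral_const_mul] at H
  have e1 : ∀ x : ℝ, phi N k t (x + y * I) * conj (fC f (x + y * I)) = C0 N k *
      ((∑' j : ℕ, (J(j | N) : ℂ) * j ^ (k - 1) * E (j * t * (y * I)) * E (j * t * x)) *
        conj (∑' n : ℕ, aF f n * E (n * (y * I)) * E (n * x))) := fun x => by
    rw [((PHI N k t hA ht).2 _ (hi x)).2.2.2, fC, ser, C0, mul_assoc]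
    congr 3
    · funext j
      rw [mul_assoc _ (E _), ← JH.add]
      congr 2
      ring
    · refine tsum_congr fun n => ?_
      rw [mul_assoc _ (E _), ← JH.add]
      congr 2
      push_cast
      ring
  rw [Im]
  simp only [e1]
  refine H.congr_fun fun j => ?_
  have e2 := E_im (j * t) y
  have e3 : Real.exp (-(4 * π * j * t) * y) =
      Real.exp (-(2 * π * (j * t) * y)) * Real.exp (-(2 * π * (j * t) * y)) := by
    rw [← Real.exp_add]
    congr 1
    ring
  rw [ofReal_mul, ofReal_natCast, ofReal_natCast] at e2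
  rw [Nat.cast_mul j t, e2, e3, map_mul, conj_ofReal, ofReal_mul]
  ring

theorem im_cont (SER : RowSER) (JH : RowJH) (PHI : RowPHI) {N k t : ℕ} (hA : Adm N k) (ht : 1 ≤ t)
    (f : CuspForm 𝒮ℒ (2 * k : ℕ)) : ContinuousOn (Im N k t f) (Ioi 0) := by
  intro y hy
  have hy' : 0 < y / 2 := half_pos hy
  have hs := (im_sum SER JH PHI hA ht f _ hy').summable.norm
  have hc : ContinuousOn (fun z : ℝ => ∑' j : ℕ, C0 N k *
      (J(j | N) * j ^ (k - 1) * conj (aF f (j * t))) * Real.exp (-(4 * π * j * t) * z))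
      (Ioi (y / 2)) := by
    refine continuousOn_tsum (fun j => by fun_prop) hs fun j z hz => ?_
    rw [norm_mul, norm_mul _ (ofReal _), norm_real, norm_real, Real.norm_of_nonneg (by positivity),
      Real.norm_of_nonneg (by positivity)]
    have h1 : y / 2 ≤ z := le_of_lt hz
    have h2 : (0 : ℝ) ≤ 4 * π * j * t := by positivity
    gcongr _ * Real.exp ?_
    nlinarith
  have := (hc.congr fun z hz => (im_sum SER JH PHI hA ht f z (hy'.trans hz)).tsum_eq.symm)
  exact (this.continuousAt (Ioi_mem_nhds (half_lt_self hy))).continuousWithinAt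

theorem im_bound (PHI : RowPHI) (BND : RowBND) {N k t : ℕ} (hA : Adm N k) (ht : 1 ≤ t)
    (f : CuspForm 𝒮ℒ (2 * k : ℕ)) : ∃ C : ℝ, ∀ y : ℝ, 0 < y → ‖Im N k t f y‖ ≤
      C * if y ≤ 1 then y ^ (5 / 4 - 2 * k : ℝ) else Real.exp (-y) := by
  obtain ⟨C, hC, h⟩ := BND N k t f hA ht
  refine ⟨C, fun y hy => ?_⟩
  rw [Im, intervalIntegral.integral_of_le zero_le_one]
  refine (norm_integral_le_lintegral_norm _).trans (ENNReal.toReal_le_of_le_ofReal ?_
    (le_trans (lintegral_mono fun x => ENNReal.ofReal_le_ofReal ?_) (h y hy)))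
  · split_ifs <;> positivity
  · rw [norm_mul, norm_conj]
    gcongr
    exact ((PHI N k t hA ht).2 _ (by simpa using hy)).2.1

theorem mel_diff (SER : RowSER) (JH : RowJH) (PHI : RowPHI) (BND : RowBND) {N k t : ℕ}
    (hA : Adm N k) (ht : 1 ≤ t) (f : CuspForm 𝒮ℒ (2 * k : ℕ)) {s : ℂ}
    (hs : 2 * k - 5 / 4 < s.re) : DifferentiableAt ℂ (mellin (Im N k t f)) s := by
  obtain ⟨C, hC⟩ := im_bound PHI BND hA ht f
  refine mellin_differentiableAt_of_isBigO_rpow_exp one_pos
    ((im_cont SER JH PHI hA ht f).locallyIntegrableOn measurableSet_Ioi) ?_ ?_ hs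
  · refine IsBigO.of_bound C ?_
    filter_upwards [eventually_gt_atTop 1] with y hy
    have := hC y (by linarith)
    rw [if_neg (not_le.2 hy)] at this
    rwa [Real.norm_of_nonneg (by positivity), neg_one_mul]
  · refine IsBigO.of_bound C ?_
    filter_upwards [Ioo_mem_nhdsGT one_pos] with y hy
    have := hC y hy.1
    rw [if_pos hy.2.le] at this
    rwa [Real.norm_of_nonneg (Real.rpow_nonneg hy.1.le _), neg_sub]

theorem coef_bound {k : ℕ} (f : CuspForm 𝒮ℒ (2 * k : ℕ)) :
    ∃ C : ℝ, 0 ≤ C ∧ ∀ n : ℕ, n ≠ 0 → ‖aF f n‖ ≤ C * (n : ℝ) ^ k := by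
  have h := CuspFormClass.qExpansion_isBigO f
  rw [Subgroup.strictWidthInfty_SL2Z] at h
  obtain ⟨C, hC, h⟩ := bound_of_isBigO_nat_atTop h
  refine ⟨C, hC.le, fun n hn => ?_⟩
  have e : (((2 * k : ℕ) : ℤ) : ℝ) / 2 = k := by
    push_cast
    ring
  have := h (x := n) (by positivity)
  rwa [e, Real.rpow_natCast, Real.norm_of_nonneg (by positivity)] at this

theorem norm_J (j N : ℕ) : ‖(J(j | N) : ℂ)‖ ≤ 1 := by
  rcases jacobiSym.trichotomy j N with h | h | h <;> simp [h]

theorem mel_sum (SER : RowSER) (JH : RowJH) (PHI : RowPHI) {N κ t : ℕ} (hA : Adm N (κ + 1))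
    (ht : 1 ≤ t) (f : CuspForm 𝒮ℒ (2 * (κ + 1) : ℕ)) {s : ℂ} (hs : (κ : ℝ) + 2 < s.re) :
    HasSum (fun j : ℕ => C0 N (κ + 1) * Gamma (s + κ) / ((4 * π : ℝ) : ℂ) ^ (s + κ) *
      (J(j | N) * conj (aF f (j * t)) / j ^ s))
      (t ^ (s + κ) * mellin (Im N (κ + 1) t f) (s + κ)) := by
  obtain ⟨C, hC, hb⟩ := coef_bound f
  have hκ : (0 : ℝ) ≤ κ := by positivity
  have hs0 : s ≠ 0 := by
    rintro rfl
    simp at hs
    linarith
  have hκ1 : κ ≠ 0 := by
    have := hA.1
    omega
  have ht' : (1 : ℝ) ≤ t := by exact_mod_cast ht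
  have H := hasSum_mellin (s := s + κ) (p := fun j : ℕ => 4 * π * j * t)
    (a := fun j : ℕ => C0 N (κ + 1) * (J(j | N) * j ^ (κ + 1 - 1) * conj (aF f (j * t))))
    (fun j => ?_) (by simp only [add_re, natCast_re]; linarith)
    (fun y hy => im_sum SER JH PHI hA ht f y hy) ?_
  · refine (H.mul_left _).congr_fun fun j => ?_
    rcases Nat.eq_zero_or_pos j with rfl | hj
    · simp [hs0, hκ1]
    · have h1 : (j : ℂ) ≠ 0 := by exact_mod_cast hj.ne'
      have h2 : (t : ℂ) ^ (s + κ) ≠ 0 := by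
        rw [Ne, cpow_eq_zero_iff]
        exact fun h => by exact_mod_cast (by omega : t ≠ 0) (by exact_mod_cast h.1)
      have h3 : ((4 * π * j * t : ℝ) : ℂ) ^ (s + κ) =
          ((4 * π : ℝ) : ℂ) ^ (s + κ) * (j ^ s * j ^ κ) * t ^ (s + κ) := by
        rw [ofReal_mul, mul_cpow_ofReal_nonneg (by positivity) (by positivity), ofReal_mul,
          mul_cpow_ofReal_nonneg (by positivity) (by positivity), ofReal_natCast, ofReal_natCast,
          cpow_add _ _ h1, cpow_natCast]
      rw [h3, Nat.add_sub_cancel]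
      field_simp
  · rcases Nat.eq_zero_or_pos j with rfl | hj
    · left
      simp [hκ1]
    · right
      positivity
  · have h1 := (Real.summable_nat_rpow_inv.2 (show 1 < s.re - (κ + 1) by linarith)).mul_left
      (‖C0 N (κ + 1)‖ * C * t ^ (κ + 1))
    refine Summable.of_nonneg_of_le (fun j => by positivity) (fun j => ?_) h1
    rcases Nat.eq_zero_or_pos j with rfl | hj
    · simp only [Nat.add_sub_cancel, Nat.cast_zero, zero_pow hκ1, mul_zero, zero_mul, norm_zero,
        zero_div]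
      positivity
    have hj' : (0 : ℝ) < j := by exact_mod_cast hj
    have h2 : (j : ℝ) ≤ 4 * π * j * t := by
      have : (1 : ℝ) ≤ 4 * π * t := by nlinarith [Real.pi_gt_three]
      nlinarith
    have h3 := hb (j * t) (by positivity)
    have h4 := norm_J j N
    have e : (j : ℝ) ^ (s + κ).re = j ^ (s.re - (κ + 1)) * (j ^ κ * j ^ (κ + 1)) := by
      rw [← pow_add, ← Real.rpow_natCast, ← Real.rpow_add hj']
      congr 1
      simp only [add_re, natCast_re]
      push_cast
      ring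
    calc _ ≤ ‖C0 N (κ + 1)‖ * (1 * j ^ κ * (C * ((j * t : ℕ) : ℝ) ^ (κ + 1))) /
          (j : ℝ) ^ (s + κ).re := by
          rw [norm_mul, norm_mul, norm_mul, norm_conj, norm_pow, Complex.norm_natCast,
            Nat.add_sub_cancel]
          gcongr
          simp only [add_re, natCast_re]
          linarith
      _ = _ := by
          rw [e]
          push_cast
          rw [mul_pow]
          field_simp

/-- the Rankin-Selberg identity in the half plane of convergence -/
theorem phi_eq (SER : RowSER) (JH : RowJH) (PHI : RowPHI) {N κ m : ℕ} (hA : Adm N (κ + 1))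
    (hm : 1 ≤ m) (f : CuspForm 𝒮ℒ (2 * (κ + 1) : ℕ)) (hH : Hecke (κ + 1) (aF f)) {L : ℂ → ℂ}
    (hL : IsL N (κ + 1) (aF f) L) {s : ℂ} (hs : (κ : ℝ) + 2 < s.re) :
    ∑ δ ∈ m.divisors, (J(δ | N) : ℂ) * (δ ^ (2 * κ + 1) / δ ^ s) *
        (((m / δ : ℕ) : ℂ) ^ (s + κ) * mellin (Im N (κ + 1) (m / δ) f) (s + κ)) =
      C0 N (κ + 1) * Gamma (s + κ) / ((4 * π : ℝ) : ℂ) ^ (s + κ) *
        (conj (aF f m) * conj (L (conj s))) := by
  obtain ⟨K, hK⟩ : ∃ K, K = C0 N (κ + 1) * Gamma (s + κ) / ((4 * π : ℝ) : ℂ) ^ (s + κ) := ⟨_, rfl⟩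
  obtain ⟨C, hC, hb⟩ := coef_bound f
  have hκ : (0 : ℝ) ≤ κ := by positivity
  have hs0 : s ≠ 0 := by
    rintro rfl
    simp at hs
    linarith
  have hs1 : conj s ≠ 0 := by simpa using hs0
  have h1 : ∀ δ ∈ m.divisors, HasSum (fun n : ℕ => if δ ∣ n then
      K * (δ ^ (2 * κ + 1) * conj (aF f (m * n / δ ^ 2)) * J(n | N) / n ^ s) else 0)
      ((J(δ | N) : ℂ) * (δ ^ (2 * κ + 1) / δ ^ s) *
        (((m / δ : ℕ) : ℂ) ^ (s + κ) * mellin (Im N (κ + 1) (m / δ) f) (s + κ))) := by
    intro δ hδ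
    obtain ⟨t, rfl⟩ := Nat.dvd_of_mem_divisors hδ
    have hδ0 : 0 < δ := Nat.pos_of_mem_divisors hδ
    have ht : 1 ≤ t := Nat.pos_of_mul_pos_left hm
    rw [Nat.mul_div_cancel_left t hδ0]
    have H := (mel_sum SER JH PHI hA ht f hs).mul_left
      ((J(δ | N) : ℂ) * (δ ^ (2 * κ + 1) / δ ^ s))
    rw [← hK] at H
    refine ((mul_right_injective₀ hδ0.ne').hasSum_iff ?_).1 (H.congr_fun fun j => ?_)
    · intro n hn
      rw [if_neg]
      rintro ⟨j, rfl⟩
      exact hn ⟨j, rfl⟩
    · have e : δ * t * (δ * j) / δ ^ 2 = j * t := by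
        rw [show δ * t * (δ * j) = δ ^ 2 * (j * t) by ring, Nat.mul_div_cancel_left _ (by positivity)]
      simp only [Function.comp, dvd_mul_right, if_true, e]
      push_cast
      rw [natCast_mul_natCast_cpow, jacobiSym.mul_left]
      push_cast
      ring
  have h2 := hasSum_sum h1
  have h3 : LSeriesSummable (fun n : ℕ => aF f n * J(n | N)) (conj s) := by
    refine LSeriesSummable_of_le_const_mul_rpow (x := κ + 2) (by simpa using hs)
      ⟨C, fun n hn => ?_⟩
    rw [show (κ : ℝ) + 2 - 1 = (κ + 1 : ℕ) by push_cast; ring, Real.rpow_natCast, norm_mul]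
    exact (mul_le_of_le_one_right (norm_nonneg _) (norm_J n N)).trans (hb n hn)
  have h4 := ((hasSum_conj'.2 h3.hasSum).mul_left (conj (aF f m))).mul_left K
  rw [hL.2 (conj s) (by rw [conj_re]; push_cast; linarith), ← hK]
  refine h2.unique (h4.congr_fun fun n => ?_)
  rw [LSeries.term_of_ne_zero' hs1, map_div₀, cpow_conj _ _ (by simp [Real.pi_ne_zero.symm]),
    conj_conj, conj_natCast, map_mul, map_intCast]
  rcases Nat.eq_zero_or_pos n with rfl | hn
  · simp [hs0]
  · have h5 := congrArg conj (hH.2 m n hm hn)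
    have h6 : (m.gcd n).divisors = m.divisors.filter (· ∣ n) := by
      ext d
      simp only [Nat.mem_divisors, Finset.mem_filter, Nat.dvd_gcd_iff]
      have := (Nat.gcd_pos_of_pos_left n hm).ne'
      have : m ≠ 0 := by omega
      tauto
    rw [map_mul, map_sum, h6, Finset.sum_filter] at h5
    rw [← mul_div_assoc, ← mul_assoc, h5, Finset.sum_mul, Finset.sum_div, Finset.mul_sum]
    refine Finset.sum_congr rfl fun δ _ => ?_
    split_ifs
    · rw [map_mul, map_pow, conj_natCast, show 2 * (κ + 1) - 1 = 2 * κ + 1 by omega]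
    · simp

theorem rowMEL : OfMEL := by
  intro SER JH _ PHI BND N k f L hA hH hL h0 m hm
  obtain ⟨κ, rfl⟩ : ∃ κ, k = κ + 1 := ⟨k - 1, by have := hA.1; omega⟩
  have hκ : (0 : ℝ) ≤ κ := by positivity
  let U : Set ℂ := {s | (κ : ℝ) + 3 / 4 < s.re}
  have hU : IsOpen U := isOpen_lt continuous_const continuous_re
  have d1 : DifferentiableOn ℂ (fun s : ℂ => ∑ δ ∈ m.divisors,
      (J(δ | N) : ℂ) * (δ ^ (2 * κ + 1) / δ ^ s) *
        (((m / δ : ℕ) : ℂ) ^ (s + κ) * mellin (Im N (κ + 1) (m / δ) f) (s + κ))) U := by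
    refine DifferentiableOn.fun_sum fun δ hδ s hs => DifferentiableAt.differentiableWithinAt ?_
    have hδ0 : (δ : ℂ) ≠ 0 := by exact_mod_cast (Nat.pos_of_mem_divisors hδ).ne'
    have ht : 1 ≤ m / δ :=
      Nat.div_pos (Nat.le_of_dvd hm (Nat.dvd_of_mem_divisors hδ)) (Nat.pos_of_mem_divisors hδ)
    have ht0 : ((m / δ : ℕ) : ℂ) ≠ 0 := by exact_mod_cast (by omega : m / δ ≠ 0)
    have a1 : DifferentiableAt ℂ (fun s : ℂ => s + κ) s := by fun_prop
    refine (((differentiableAt_const _).div (differentiableAt_id.const_cpow (Or.inl hδ0))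
      ?_).const_mul _).mul ((a1.const_cpow (Or.inl ht0)).mul
        ((mel_diff SER JH PHI BND hA ht f ?_).comp s a1))
    · rw [Ne, cpow_eq_zero_iff]
      exact fun h => hδ0 h.1
    · have : (κ : ℝ) + 3 / 4 < s.re := hs
      simp only [add_re, natCast_re]
      push_cast
      linarith
  have d2 : DifferentiableOn ℂ (fun s : ℂ => C0 N (κ + 1) * Gamma (s + κ) /
      ((4 * π : ℝ) : ℂ) ^ (s + κ) * (conj (aF f m) * conj (L (conj s)))) U := by
    intro s hs
    have hs' : (κ : ℝ) + 3 / 4 < s.re := hs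
    have a1 : DifferentiableAt ℂ (fun s : ℂ => s + κ) s := by fun_prop
    have hp : ((4 * π : ℝ) : ℂ) ≠ 0 := by exact_mod_cast (by positivity : (4 * π : ℝ) ≠ 0)
    have a2 : DifferentiableAt ℂ (conj ∘ L ∘ conj) s := by
      simpa using (hL.1 (conj s)).conj_conj
    refine DifferentiableAt.differentiableWithinAt (((((differentiableAt_Gamma _ fun n h => ?_).comp
      s a1).const_mul _).div (a1.const_cpow (Or.inl hp)) ?_).mul (a2.const_mul _))
    · have := congrArg re h
      simp only [add_re, natCast_re, neg_re] at this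
      have : (0 : ℝ) ≤ n := by positivity
      linarith
    · rw [Ne, cpow_eq_zero_iff]
      exact fun h => hp h.1
  have key := (d1.analyticOnNhd hU).eqOn_of_preconnected_of_eventuallyEq (d2.analyticOnNhd hU)
    (convex_halfSpace_re_gt _).isPreconnected (z₀ := (κ + 3 : ℝ))
    (show (κ : ℝ) + 3 / 4 < _ by rw [ofReal_re]; linarith) (by
      filter_upwards [(isOpen_lt continuous_const continuous_re).mem_nhds
        (show (κ : ℝ) + 2 < ((κ + 3 : ℝ) : ℂ).re by rw [ofReal_re]; linarith)] with s hs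
      exact phi_eq SER JH PHI hA hm f hH hL hs)
    (x := ((κ + 1 : ℕ) : ℂ)) (show (κ : ℝ) + 3 / 4 < _ by rw [natCast_re]; push_cast; linarith)
  simp only [conj_natCast, h0, map_zero, mul_zero] at key
  rw [← key]
  refine Finset.sum_congr rfl fun δ hδ => ?_
  have hδ0 : (δ : ℂ) ≠ 0 := by exact_mod_cast (Nat.pos_of_mem_divisors hδ).ne'
  have e1 : ((κ + 1 : ℕ) : ℂ) + κ = ((2 * κ + 1 : ℕ) : ℂ) := by
    push_cast
    ring
  have e2 : mellin (Im N (κ + 1) (m / δ) f) ((2 * κ + 1 : ℕ) : ℂ) = Lam N (κ + 1) (m / δ) f := by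
    rw [mellin, Lam, show ((2 * κ + 1 : ℕ) : ℂ) - 1 = ((2 * κ : ℕ) : ℂ) by push_cast; ring,
      show 2 * (κ + 1) - 2 = 2 * κ by omega]
    simp only [cpow_natCast, smul_eq_mul]
  rw [e1, e2, cpow_natCast, cpow_natCast, Nat.add_sub_cancel,
    show 2 * (κ + 1) - 1 = 2 * κ + 1 by omega]
  field_simp
  ring

end Pool.Agent.MP_5f72fe_nt.H36
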